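import Pool.Agent.Work.MP_1ce445_upg.Interface

namespace Pool.Agent.Work.MP_1ce445_upg

open Finset Pool.Agent.Work.MP_1ce445_co_56 Pool.Agent.Work.MP_1ce445_lin

/-- sum of squares bound: all terms in `[0, r]`, sum `r + θ`, `θ ≤ r`. -/
theorem QUA_sq {ι : Type} (A : Finset ι) (b : ι → ℝ) (r θ : ℝ)
    (h0 : ∀ j ∈ A, 0 ≤ b j) (hr : ∀ j ∈ A, b j ≤ r) (hs : ∑ j ∈ A, b j = r + θ) (hθ0 : 0 ≤ θ)
    (hθ : θ ≤ r) : ∑ j ∈ A, b j ^ 2 ≤ r ^ 2 + θ ^ 2 := by
  classical
  rcases A.eq_empty_or_nonempty with rfl | hne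
  · simp only [Finset.sum_empty]
    positivity
  obtain ⟨i, hi, hmax⟩ := A.exists_max_image b hne
  by_cases hb : b i ≤ θ
  · have h1 : ∑ j ∈ A, b j ^ 2 ≤ ∑ j ∈ A, b i * b j := by
      apply Finset.sum_le_sum
      intro j hj
      have := hmax j hj
      have := h0 j hj
      nlinarith
    rw [← Finset.mul_sum, hs] at h1
    nlinarith [h0 i hi]
  · push Not at hb
    have hsplit : b i + ∑ j ∈ A.erase i, b j = r + θ := by
      rw [Finset.add_sum_erase A b hi, hs]
    have hsq : ∑ j ∈ A, b j ^ 2 = b i ^ 2 + ∑ j ∈ A.erase i, b j ^ 2 := by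
      rw [Finset.add_sum_erase A (fun j => b j ^ 2) hi]
    have h0' : ∀ j ∈ A.erase i, 0 ≤ b j := fun j hj => h0 j (Finset.mem_of_mem_erase hj)
    have h2 : ∑ j ∈ A.erase i, b j ^ 2 ≤ (∑ j ∈ A.erase i, b j) ^ 2 := by
      rw [sq (∑ j ∈ A.erase i, b j), Finset.sum_mul]
      apply Finset.sum_le_sum
      intro j hj
      rw [sq]
      exact mul_le_mul_of_nonneg_left (Finset.single_le_sum h0' hj) (h0' j hj)
    have h3 : ∑ j ∈ A.erase i, b j = r + θ - b i := by linarith
    rw [h3] at h2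
    rw [hsq]
    have := hr i hi
    nlinarith [mul_nonneg (sub_nonneg.mpr this) (sub_nonneg.mpr hb.le)]

theorem stmt_QUA : Stmt_QUA := by
  intro ι A a ρ D r r₀ η κ hD hr hr1 hr0 hη hκ hρ hsum ha hmain
  set R : ℝ := ∑ j ∈ A, ρ j with hR
  have hRn : 0 ≤ R := Finset.sum_nonneg hρ
  have hk : 0 ≤ Real.sqrt κ := Real.sqrt_nonneg κ
  have hX : 0 ≤ r + R / 2 + Real.sqrt κ := by positivity
  -- it suffices to bound the square
  suffices hkey : η * (D - η) ≤ (r + R / 2) ^ 2 + κ by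
    refine Real.sqrt_le_iff.mpr ⟨hX, ?_⟩
    have hsk : Real.sqrt κ ^ 2 = κ := Real.sq_sqrt hκ
    nlinarith [mul_nonneg (by positivity : 0 ≤ r + R / 2) hk]
  set s : ℝ := ∑ j ∈ A, max (-a j) 0 with hsdef
  have hsn : 0 ≤ s := Finset.sum_nonneg (fun j _ => le_max_right _ _)
  set θ : ℝ := η + r₀ + s with hθdef
  have hθη : η ≤ θ := by linarith
  have hpos : ∑ j ∈ A, max (a j) 0 = r + θ := by
    have h1 : ∀ j ∈ A, max (a j) 0 = a j + max (-a j) 0 := by
      intro j _
      rcases le_total 0 (a j) with h | h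
      · rw [max_eq_left h, max_eq_right (by linarith)]; ring
      · rw [max_eq_right h, max_eq_left (by linarith)]; ring
    rw [Finset.sum_congr rfl h1, Finset.sum_add_distrib, hsum, ← hsdef]
    ring
  have hb0 : ∀ j ∈ A, 0 ≤ max (a j) 0 := fun j _ => le_max_right _ _
  have hbr : ∀ j ∈ A, max (a j) 0 ≤ r := fun j hj => max_le (ha j hj) hr
  -- the main inequality
  have hmain2 : D * θ ≤ ∑ j ∈ A, (max (a j) 0) ^ 2 + R * r + κ := by
    have h1 : ∑ j ∈ A, (D - a j - ρ j) * max (a j) 0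
        = ∑ j ∈ A, (D * max (a j) 0 - (max (a j) 0) ^ 2 - ρ j * max (a j) 0) := by
      apply Finset.sum_congr rfl
      intro j _
      rcases le_total 0 (a j) with h | h
      · rw [max_eq_left h]; ring
      · rw [max_eq_right h]; ring
    rw [h1, Finset.sum_sub_distrib, Finset.sum_sub_distrib, ← Finset.mul_sum, hpos] at hmain
    have h2 : ∑ j ∈ A, ρ j * max (a j) 0 ≤ R * r := by
      rw [hR, Finset.sum_mul]
      apply Finset.sum_le_sum
      intro j hj
      exact mul_le_mul_of_nonneg_left (hbr j hj) (hρ j hj)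
    nlinarith
  -- trivial cases
  by_cases hηD : D ≤ η
  · have : η * (D - η) ≤ 0 := mul_nonpos_of_nonneg_of_nonpos hη (by linarith)
    nlinarith [sq_nonneg (r + R / 2)]
  push Not at hηD
  by_cases hrD : D / 2 ≤ r
  · have h1 : η * (D - η) ≤ (D / 2) ^ 2 := by nlinarith [sq_nonneg (D / 2 - η)]
    have h2 : (D / 2) ^ 2 ≤ (r + R / 2) ^ 2 := by
      apply pow_le_pow_left₀ (by positivity)
      linarith
    linarith
  push Not at hrD
  have hsquare : r ^ 2 + R * r ≤ (r + R / 2) ^ 2 := by nlinarith [sq_nonneg R]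
  by_cases hcase : θ ≤ r
  · have hq := QUA_sq A (fun j => max (a j) 0) r θ hb0 hbr hpos (by linarith) hcase
    have h1 : η * (D - η) ≤ θ * (D - θ) := by nlinarith
    nlinarith
  · push Not at hcase
    have hq : ∑ j ∈ A, (max (a j) 0) ^ 2 ≤ r * (r + θ) := by
      rw [← hpos, Finset.mul_sum]
      apply Finset.sum_le_sum
      intro j hj
      rw [sq]
      exact mul_le_mul_of_nonneg_right (hbr j hj) (hb0 j hj)
    have h2 : η * (D - η) ≤ θ * (D - r) := by
      by_cases hrη : r ≤ η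
      · have h3 : η * (D - η) ≤ θ * (D - η) := mul_le_mul_of_nonneg_right hθη (by linarith)
        have h4 : θ * (D - η) ≤ θ * (D - r) := mul_le_mul_of_nonneg_left (by linarith) (by linarith)
        linarith
      · push Not at hrη
        have h3 : η * (D - η) ≤ r * (D - r) := by nlinarith
        have h4 : r * (D - r) ≤ θ * (D - r) := mul_le_mul_of_nonneg_right hcase.le (by linarith)
        linarith
    nlinarith

end Pool.Agent.Work.MP_1ce445_upg
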