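import Pool.Agent.Work.MP_1ce445_upg.Interface

/-!
THEOREM UPG for MP_1ce445_co, block POW: `c^(m+2) ≤ (1 - 1/m)^m` for `c ≤ m/(m+1)`.
-/

namespace Pool.Agent.Work.MP_1ce445_upg

open Finset Pool.Agent.Work.MP_1ce445_co_56 Pool.Agent.Work.MP_1ce445_lin

lemma POW_top (m : ℕ) (hm : 2 ≤ m) :
    ((m : ℝ) / ((m : ℝ) + 1)) ^ (m + 2) ≤ (1 - 1 / (m : ℝ)) ^ m := by
  have h2 : (2 : ℝ) ≤ m := by exact_mod_cast hm
  have h0 : (0 : ℝ) < m := by linarith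
  have hs : (0 : ℝ) < (m : ℝ) ^ 2 - 1 := by nlinarith
  have hs' : (m : ℝ) ^ 2 - 1 ≠ 0 := hs.ne'
  have hb : (0 : ℝ) ≤ 1 - 1 / (m : ℝ) := by
    rw [sub_nonneg, div_le_one h0]; linarith
  have e1 : (m : ℝ) / ((m : ℝ) + 1) = (1 - 1 / (m : ℝ)) * (1 + 1 / ((m : ℝ) ^ 2 - 1)) := by
    field_simp
    ring
  have h3 : (1 + 1 / ((m : ℝ) ^ 2 - 1)) ^ m ≤ Real.exp (2 / ((m : ℝ) + 1)) := by
    have h4 : 1 + 1 / ((m : ℝ) ^ 2 - 1) ≤ Real.exp (1 / ((m : ℝ) ^ 2 - 1)) := by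
      linarith [Real.add_one_le_exp (1 / ((m : ℝ) ^ 2 - 1))]
    have h5 : (0 : ℝ) ≤ 1 + 1 / ((m : ℝ) ^ 2 - 1) := by positivity
    refine (pow_le_pow_left₀ h5 h4 m).trans ?_
    rw [← Real.exp_nat_mul]
    refine Real.exp_le_exp.2 ?_
    rw [mul_one_div, div_le_div_iff₀ hs (by linarith)]
    nlinarith
  have h6 : Real.exp (2 / ((m : ℝ) + 1)) * ((m : ℝ) / ((m : ℝ) + 1)) ^ 2 ≤ 1 := by
    have h7 : (m : ℝ) / ((m : ℝ) + 1) ≤ Real.exp (-(1 / ((m : ℝ) + 1))) := by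
      have h8 := Real.add_one_le_exp (-(1 / ((m : ℝ) + 1)))
      have h9 : (m : ℝ) / ((m : ℝ) + 1) = -(1 / ((m : ℝ) + 1)) + 1 := by
        field_simp
        ring
      rw [h9]; exact h8
    have h10 : ((m : ℝ) / ((m : ℝ) + 1)) ^ 2 ≤ Real.exp (-(1 / ((m : ℝ) + 1))) ^ 2 :=
      pow_le_pow_left₀ (by positivity) h7 2
    calc Real.exp (2 / ((m : ℝ) + 1)) * ((m : ℝ) / ((m : ℝ) + 1)) ^ 2
        ≤ Real.exp (2 / ((m : ℝ) + 1)) * Real.exp (-(1 / ((m : ℝ) + 1))) ^ 2 :=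
          mul_le_mul_of_nonneg_left h10 (Real.exp_pos _).le
      _ = 1 := by
        rw [← Real.exp_nat_mul, ← Real.exp_add]
        have : 2 / ((m : ℝ) + 1) + ((2 : ℕ) : ℝ) * -(1 / ((m : ℝ) + 1)) = 0 := by
          push_cast
          ring
        rw [this, Real.exp_zero]
  calc ((m : ℝ) / ((m : ℝ) + 1)) ^ (m + 2)
      = ((m : ℝ) / ((m : ℝ) + 1)) ^ m * ((m : ℝ) / ((m : ℝ) + 1)) ^ 2 := pow_add _ _ _
    _ = (1 - 1 / (m : ℝ)) ^ m * ((1 + 1 / ((m : ℝ) ^ 2 - 1)) ^ m * ((m : ℝ) / ((m : ℝ) + 1)) ^ 2) := by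
        rw [← mul_assoc, ← mul_pow, ← e1]
    _ ≤ (1 - 1 / (m : ℝ)) ^ m * (Real.exp (2 / ((m : ℝ) + 1)) * ((m : ℝ) / ((m : ℝ) + 1)) ^ 2) := by
        refine mul_le_mul_of_nonneg_left ?_ (pow_nonneg hb m)
        exact mul_le_mul_of_nonneg_right h3 (by positivity)
    _ ≤ (1 - 1 / (m : ℝ)) ^ m * 1 := mul_le_mul_of_nonneg_left h6 (pow_nonneg hb m)
    _ = (1 - 1 / (m : ℝ)) ^ m := mul_one _

theorem stmt_POW : Stmt_POW := by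
  intro m c hm hc hcu
  refine le_trans (pow_le_pow_left₀ hc ?_ (m + 2)) (POW_top m hm)
  have h0 : (0 : ℝ) < (m : ℝ) + 1 := by positivity
  refine hcu.trans (le_of_eq ?_)
  field_simp
  ring

end Pool.Agent.Work.MP_1ce445_upg
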