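import Pool.Agent.Work.MP_1ce445_lin.Interface2

/-!
THEOREM UPG for MP_1ce445_co: the improved upper bound above `1/2`. Definitions and statements of the blocks, with
complete proofs in the docstrings.

One file `Pool/Agent/Work/MP_1ce445_upg/<ID>.lean` per block, `import Pool.Agent.Work.MP_1ce445_upg.Interface`,
same `open` lines, theorem `stmt_<ID>` with exactly the statements of the column `uses` as hypotheses, in this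
order; auxiliary lemmas with the name of the block in front (`QUA_aux`). Models: `MP_1ce445_lin/INC.lean`,
`BAS.lean`, `ATW.lean`, `UP2.lean` (lemmas of these files may be copied).

Notation: `D = 1 - c`, `q = m + 1`, `η = q D - 1 = m - (m + 1) c`, `D - η = m c - (m - 1)`,
`z = √(η (D - η))`, `Dl m c = max 0 (z - η)`. `p_x = pr T x` is the fraction of the `v` with `x ∈ T v`, `N = |V|`.
Overview: `A` is the set of the elements `j` such that some `T v` is `{j}`; all `p_j ≥ D` for `j ∈ A`. If `|A| ≤ m` the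
product is at most `(1 - 1/m)^m` (INB), if `|A| ≥ m + 2` it is at most `c^(m+2) ≤ (1 - 1/m)^m` (POW), and if
`|A| = m + 1` the vertices `v` with `T v = {j}` need neighbours among the vertices with `|T v ∩ A| ≥ 2` (HUB).
-/

namespace Pool.Agent.Work.MP_1ce445_upg

open Finset Pool.Agent.Work.MP_1ce445_co_56 Pool.Agent.Work.MP_1ce445_lin

/-- `Dl m c = max 0 (z - η)` -/
noncomputable def Dl (m : ℕ) (c : ℝ) : ℝ :=
  max 0 (Real.sqrt (((m : ℝ) - (m + 1) * c) * (m * c - (m - 1))) - ((m : ℝ) - (m + 1) * c))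

/-- The hypotheses on the set system: all degrees of `W` are between `(1 - c) N` and `(1 - c + κ) N`. -/
structure Sy {V : Type} [Fintype V] {k : ℕ} (M : Finset (Fin k)) (T : V → Finset (Fin k))
    (W : V → V → Prop) (m : ℕ) (c κ : ℝ) : Prop where
  pos : 0 < Fintype.card V
  sub : ∀ v, T v ⊆ M
  symm : ∀ v w, W v w → W w v
  meet : ∀ v w, W v w → (T v ∩ T w).Nonempty
  hm : 2 ≤ m
  cl : 0 ≤ c
  cu : c ≤ 1 - 1 / ((m : ℝ) + 1)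
  kap : 0 ≤ κ
  low : ∀ v, (1 - c) * Fintype.card V ≤ dW W v
  upp : ∀ v, dW W v ≤ (1 - c + κ) * Fintype.card V

open Classical in
/-- the elements `j` such that some `T v` is `{j}` -/
noncomputable def Sg {V : Type} [Fintype V] {k : ℕ} (T : V → Finset (Fin k)) : Finset (Fin k) :=
  univ.filter (fun j => ∃ v, T v = {j})

/-- `n_j`: fraction of the `v` with `T v = {j}` -/
noncomputable def nn {V : Type} [Fintype V] {k : ℕ} (T : V → Finset (Fin k)) (j : Fin k) : ℝ :=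
  ((univ.filter (fun v => T v = {j})).card : ℝ) / Fintype.card V

/-- `m_j`: fraction of the `v` with `T v ∩ A = {j}`, `A = Sg T` -/
noncomputable def mm {V : Type} [Fintype V] {k : ℕ} (T : V → Finset (Fin k)) (j : Fin k) : ℝ :=
  ((univ.filter (fun v => T v ∩ Sg T = {j})).card : ℝ) / Fintype.card V

/-- `r`: fraction of the `v` with `|T v ∩ A| ≥ 2` -/
noncomputable def rr {V : Type} [Fintype V] {k : ℕ} (T : V → Finset (Fin k)) : ℝ :=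
  ((univ.filter (fun v => 2 ≤ (T v ∩ Sg T).card)).card : ℝ) / Fintype.card V

/-- `r₀`: fraction of the `v` with `T v ∩ A = ∅` -/
noncomputable def r0 {V : Type} [Fintype V] {k : ℕ} (T : V → Finset (Fin k)) : ℝ :=
  ((univ.filter (fun v => T v ∩ Sg T = ∅)).card : ℝ) / Fintype.card V

/-- CNT (200 lines). `T v` is never empty (`dW W v > 0` as `c < 1`, `meet`). (a) `Sg T ⊆ M`, `0 ≤ p_x ≤ 1`. (b) the
`v` are partitioned by `|T v ∩ A|` into `0`, `1`, `≥ 2`. (c) `T v = {j}` implies `T v ∩ A = {j}` (`j ∈ A`). (d) for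
`j ∈ A` take `v` with `T v = {j}`: all its `W`-neighbours `w` have `j ∈ T w`, so `D N ≤ p_j N`; and each such `w` has
`T w ∩ A = {j}` or `|T w ∩ A| ≥ 2`, so `D ≤ m_j + r`. (e) every `v` with `T v = {j}` has at least `(D - m_j) N`
`W`-neighbours `w` with `|T w ∩ A| ≥ 2`; sum over `j ∈ A` and the `n_j N` vertices `v`: the number of pairs is at most
`∑_{w : |T w ∩ A| ≥ 2} dW W w ≤ r N (D + κ) N` (symmetry). (f) `∑_{j ∈ A} p_j N = ∑_v |T v ∩ A| ≥ (1 - r - r₀) N + 2 r N`.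
(g) `∑_{x ∈ M \ A} p_x N = ∑_v |T v \ A|`, at least 1 if `T v ∩ A = {j}` and `T v ≠ {j}`, and at least 2 if
`T v ∩ A = ∅` (`T v = {x}` would mean `x ∈ A`). -/
def Stmt_CNT : Prop :=
  ∀ {V : Type} [Fintype V] {k : ℕ} (M : Finset (Fin k)) (T : V → Finset (Fin k))
    (W : V → V → Prop) (m : ℕ) (c κ : ℝ), Sy M T W m c κ →
    (Sg T ⊆ M ∧ (∀ x, 0 ≤ pr T x ∧ pr T x ≤ 1)) ∧
    (0 ≤ rr T ∧ rr T ≤ 1 ∧ 0 ≤ r0 T ∧ ∑ j ∈ Sg T, mm T j + rr T + r0 T = 1) ∧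
    (∀ j ∈ Sg T, 0 ≤ nn T j ∧ nn T j ≤ mm T j ∧ 1 - c ≤ pr T j ∧ 1 - c - mm T j ≤ rr T) ∧
    ∑ j ∈ Sg T, nn T j * max (1 - c - mm T j) 0 ≤ rr T * (1 - c + κ) ∧
    1 + rr T - r0 T ≤ ∑ j ∈ Sg T, pr T j ∧
    ∑ j ∈ Sg T, (mm T j - nn T j) + 2 * r0 T ≤ ∑ x ∈ M \ Sg T, pr T x

/-- QUA (150 lines), real numbers. Let `a⁺ = max a 0`, `s = ∑ max (-a_j) 0`, `θ = η + r₀ + s ≥ η`, `ρ = ∑ ρ_j`. So
`∑ a_j⁺ = θ + r`, and the last hypothesis gives `D θ ≤ Q + ρ r + κ` with `Q = ∑ (a_j⁺)²` (`a_j⁺ ≤ r ≤ 1`). (1)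
`Q ≤ r (r + θ)`. (2) if `θ ≤ r` then `Q ≤ r² + θ²`: let `b` be the largest `a_j⁺`; if `b ≤ θ` then
`Q ≤ b (r + θ) ≤ θ² + r²`; otherwise `Q ≤ b² + (r + θ - b)²` and `(r - b)(b - θ) ≥ 0`. Case `θ ≤ r`:
`θ (D - θ) ≤ r² + ρ r + κ ≤ (r + ρ/2)² + κ`; if `θ ≥ D/2` then `r ≥ D/2 ≥ √(η (D - η))`, otherwise
`η (D - η) ≤ θ (D - θ)`. Case `θ > r`: `θ (D - r) ≤ (r + ρ/2)² + κ`; if `r ≥ D/2` as before; if `r < D/2` and `r ≤ η`
then `θ (D - r) ≥ η (D - η)`; if `η < r < D/2` then `θ (D - r) ≥ r (D - r) ≥ η (D - η)`. And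
`√(x² + κ) ≤ x + √κ`. -/
def Stmt_QUA : Prop :=
  ∀ {ι : Type} (A : Finset ι) (a ρ : ι → ℝ) (D r r₀ η κ : ℝ), 0 < D → 0 ≤ r → r ≤ 1 → 0 ≤ r₀ →
    0 ≤ η → 0 ≤ κ → (∀ j ∈ A, 0 ≤ ρ j) → ∑ j ∈ A, a j = η + r + r₀ → (∀ j ∈ A, a j ≤ r) →
    ∑ j ∈ A, (D - a j - ρ j) * max (a j) 0 ≤ r * (D + κ) →
    Real.sqrt (η * (D - η)) ≤ r + (∑ j ∈ A, ρ j) / 2 + Real.sqrt κ

/-- REA (80 lines), real numbers, `q = m + 1 ≥ 3`. Let `z' = max 0 (z - σ)`, `X = m - z' ≥ q - 3/2 ≥ q/2`,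
`δ = ρ/2 + r₀`. `r + ρ/2 ≥ z'`, so `m - r + r₀ ≤ X + δ`, `((X + δ)/q)^q ≤ (X/q)^q exp (q δ/X) ≤ (X/q)^q exp (2 δ)`. And
`(X/q)^q ≤ ((m - z)/q)^q + σ`: `X/q = a + b`, `a = (m - z)/q`, `0 ≤ b = (z - z')/q ≤ σ/q`, `a + b ≤ 1`, and
`(a + b)^q ≤ a^q + q b` (induction on the exponent). -/
def Stmt_REA : Prop :=
  ∀ (m : ℕ) (r r₀ ρ z σ : ℝ), 2 ≤ m → 0 ≤ r → 0 ≤ r₀ → 0 ≤ ρ → 0 ≤ z → z ≤ 1 / 2 → 0 ≤ σ →
    0 ≤ (m : ℝ) - r + r₀ → z ≤ r + ρ / 2 + σ →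
    (((m : ℝ) - r + r₀) / (m + 1)) ^ (m + 1) * Real.exp (-(ρ + 2 * r₀)) ≤
      (((m : ℝ) - z) / (m + 1)) ^ (m + 1) + σ

/-- HUB (120 lines; uses CNT QUA REA): exactly `m + 1` singletons. `∏_M (1 - p) = ∏_A (1 - p_j) ∏_{M \ A} (1 - p_x)`.
If `Dl m c = 0`: the product is `≤ ∏_A (1 - p_j) ≤ c^(m+1)`. Otherwise `Dl m c = z - η`,
`c - Dl m c/(m+1) = (m - z)/(m+1)` (`(m + 1) c + η = m`), `z ≤ D/2 ≤ 1/2` (`4 η (D - η) ≤ D²`). QUA with `a_j = D - m_j`,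
`ρ_j = m_j - n_j` (`∑ a_j = (m+1) D - (1 - r - r₀) = η + r + r₀`), `r = rr T`, `r₀ = r0 T`: `z ≤ r + ρ/2 + √κ`. AM-GM
(`INC_amgm` in `MP_1ce445_lin/INC.lean`): `∏_A (1 - p_j) ≤ ((m + 1 - ∑_A p_j)/(m+1))^(m+1) ≤ ((m - r + r₀)/(m+1))^(m+1)`,
and `∏_{M \ A} (1 - p_x) ≤ exp (-∑ p_x) ≤ exp (-(ρ + 2 r₀))`; then REA with `σ = √κ`. -/
def Stmt_HUB : Prop :=
  ∀ {V : Type} [Fintype V] {k : ℕ} (M : Finset (Fin k)) (T : V → Finset (Fin k))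
    (W : V → V → Prop) (m : ℕ) (c κ : ℝ), Sy M T W m c κ → (Sg T).card = m + 1 →
    ∏ x ∈ M, (1 - pr T x) ≤ (c - Dl m c / (m + 1)) ^ (m + 1) + Real.sqrt κ

/-- INB (150 lines; uses INA CNT): at most `m` singletons; as in `INC.lean` with `s = 0`. Let `r` be the fraction of the
`v` with `|T v| ≥ 2` (the others are singletons), `x = ∑_A p_j`, `a = |A|`. `∑_M p_x ≥ 1 + r`, `x ≥ 1 - r`, `x ≤ a`.
`a = 0`: `r = 1`, the product is `≤ exp (-2) ≤ 1/4 ≤ (1 - 1/m)^m`. `a ≥ 1`: AM-GM for `A`, `exp` for `M \ A`, INA with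
`s = 0`. -/
def Stmt_INB : Prop :=
  ∀ {V : Type} [Fintype V] {k : ℕ} (M : Finset (Fin k)) (T : V → Finset (Fin k))
    (W : V → V → Prop) (m : ℕ) (c κ : ℝ), Sy M T W m c κ → (Sg T).card ≤ m →
    ∏ x ∈ M, (1 - pr T x) ≤ (1 - 1 / (m : ℝ)) ^ m

/-- POW (50 lines): it is enough to show `(1 + 1/(m² - 1))^m ≤ (1 + 1/m)²` (take `c = m/(m+1)`), and
`(1 + 1/(m² - 1))^m ≤ exp (m/(m² - 1)) ≤ exp (2/(m + 1)) ≤ (1 + 1/m)²` (`exp (1/(m+1)) ≤ 1 + 1/m`, from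
`1 - 1/(m+1) ≤ exp (-1/(m+1))`). -/
def Stmt_POW : Prop :=
  ∀ (m : ℕ) (c : ℝ), 2 ≤ m → 0 ≤ c → c ≤ 1 - 1 / ((m : ℝ) + 1) →
    c ^ (m + 2) ≤ (1 - 1 / (m : ℝ)) ^ m

/-- ALU (60 lines; uses CNT HUB INB POW): cases `|A| ≤ m`, `|A| = m + 1`, `|A| ≥ m + 2` (the factors of `A` are in `[0, c]`
and the others in `[0, 1]`). -/
def Stmt_ALU : Prop :=
  ∀ {V : Type} [Fintype V] {k : ℕ} (M : Finset (Fin k)) (T : V → Finset (Fin k))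
    (W : V → V → Prop) (m : ℕ) (c κ : ℝ), Sy M T W m c κ →
    ∏ x ∈ M, (1 - pr T x) ≤
      max ((1 - 1 / (m : ℝ)) ^ m) ((c - Dl m c / (m + 1)) ^ (m + 1)) + Real.sqrt κ

/-- UPU (250 lines; uses UP ALU COR2; model `UP2.lean`, which is almost the same proof). Given `ε`. The function
`f c = max ((1 - 1/m)^m) ((c - Dl m c/(m+1))^(m+1))` is continuous, hence uniformly continuous on `[0, 1]`. (a) `η > 0` with
`c^(m+1) ≤ (c - Dl m c/(m+1))^(m+1) + ε/2` for `c₁ - η ≤ c ≤ c₁ = 1 - 1/(m+1)` (`Dl m c₁ = 0`); for these `k` use UP with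
`ε/2`. (b) `k ≤ (c₁ - η) n`: `s` small, then `R`, `t`, then `n` large. First alternative of COR2:
`e^{-4} ≤ 1/4 ≤ (1 - 1/m)^m`. Second: `V = {v // v ∈ Vg}`, `c' = k/n + 1/n + 2 s ≤ c₁`, `κ = 10 s`, ALU, and the rest exactly
as in `UP2.lean` (`UP2_bd`, `UP2_prod`, ..). -/
def Stmt_UPU : Prop :=
  ∀ (m : ℕ) (ε : ℝ), 2 ≤ m → 0 < ε → ∃ n0 : ℕ, ∀ n k : ℕ, n0 ≤ n →
    (k : ℝ) ≤ (1 - 1 / ((m : ℝ) + 1)) * n →
    (P n k : ℝ) ≤ (max ((1 - 1 / (m : ℝ)) ^ m)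
      (((k : ℝ) / n - Dl m ((k : ℝ) / n) / (m + 1)) ^ (m + 1)) + ε) * (NN n : ℝ) ^ k

/-- RAT (80 lines), real numbers. `0 ≤ Dl m c ≤ z ≤ D/2 ≤ 1/4`. Let `x = Dl m c/c ≤ 1/2`, so the left side is
`c^(m+1) (1 - x/(m+1))^(m+1) ≤ c^(m+1) exp (-x)`. If `x ≥ 7/40`: `c^(m+1) ≤ (1 - 1/(m+1))^(m+1) ≤ 32/27 (1 - 1/m)^m`
(`ratio_le` in `MP_1ce445_lin/End.lean`; copy it) and `32/27 exp (-7/40) ≤ 1`. If `x < 7/40`:
`exp (-x) ≤ 1 - x + x²/2 ≤ 51/50 (1 - x)` because `25 x² + x ≤ 1`, and `c^(m+1) (1 - x) = c^m (c - Dl m c)`. -/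
def Stmt_RAT : Prop :=
  ∀ (m : ℕ) (c : ℝ), 2 ≤ m → 1 / 2 ≤ c → c ≤ 1 - 1 / ((m : ℝ) + 1) →
    (c - Dl m c / (m + 1)) ^ (m + 1) ≤
      51 / 50 * max ((1 - 1 / (m : ℝ)) ^ m) (c ^ m * (c - Dl m c))

end Pool.Agent.Work.MP_1ce445_upg
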