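import Pool.Agent.Work.MP_1ce445_upg.Interface

/-!
Block CNT: counting facts for the set system.
-/

namespace Pool.Agent.Work.MP_1ce445_upg

open Finset Pool.Agent.Work.MP_1ce445_co_56 Pool.Agent.Work.MP_1ce445_lin

open Classical in
lemma CNT_count {V : Type} [Fintype V] {k : ℕ} (B : Finset (Fin k)) (T : V → Finset (Fin k))
    (N : ℝ) (hNd : N = Fintype.card V) (hN : 0 < N) :
    (∑ j ∈ B, pr T j) * N = ∑ v, ((T v ∩ B).card : ℝ) := by
  have h1 : ∀ j ∈ B, pr T j * N = ∑ v : V, (if j ∈ T v then (1 : ℝ) else 0) := by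
    intro j _
    rw [sum_boole, pr, ← hNd, div_mul_cancel₀ _ hN.ne']
  rw [sum_mul, sum_congr rfl h1, sum_comm]
  refine sum_congr rfl fun v _ => ?_
  rw [sum_boole]
  congr 2
  ext j
  simp only [mem_filter, mem_inter]
  tauto

open Classical in
lemma CNT_cases {V : Type} [Fintype V] {k : ℕ} (T : V → Finset (Fin k)) (v : V) :
    (T v ∩ Sg T = ∅) ∨ (∃ a ∈ Sg T, T v ∩ Sg T = {a}) ∨ 2 ≤ (T v ∩ Sg T).card := by
  rcases Nat.lt_or_ge (T v ∩ Sg T).card 2 with h | h
  · rcases Nat.eq_zero_or_pos (T v ∩ Sg T).card with h0 | h0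
    · left
      exact card_eq_zero.1 h0
    · right; left
      obtain ⟨a, ha⟩ := card_eq_one.1 (show (T v ∩ Sg T).card = 1 by omega)
      refine ⟨a, ?_, ha⟩
      have : a ∈ T v ∩ Sg T := by rw [ha]; exact mem_singleton_self a
      exact (mem_inter.1 this).2
  · right; right
    exact h

open Classical in
lemma CNT_sing {k : ℕ} (A : Finset (Fin k)) (a : Fin k) (ha : a ∈ A) :
    ∑ j ∈ A, (if ({a} : Finset (Fin k)) = {j} then (1 : ℝ) else 0) = 1 := by
  rw [sum_boole]
  have : A.filter (fun j => ({a} : Finset (Fin k)) = {j}) = {a} := by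
    ext j
    simp only [mem_filter, mem_singleton, singleton_inj]
    constructor
    · rintro ⟨_, h⟩
      exact h.symm
    · rintro rfl
      exact ⟨ha, rfl⟩
  rw [this]
  simp

open Classical in
lemma CNT_single {k : ℕ} (A S : Finset (Fin k)) :
    ∑ j ∈ A, (if S = {j} then (1 : ℝ) else 0) ≤ 1 := by
  rw [sum_boole]
  have : (A.filter (fun j => S = {j})).card ≤ 1 := by
    rw [card_le_one]
    intro a ha b hb
    have h1 := (mem_filter.1 ha).2
    have h2 := (mem_filter.1 hb).2
    rw [h1] at h2
    exact singleton_injective h2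
  exact_mod_cast this

open Classical in
theorem stmt_CNT : Stmt_CNT := by
  intro V _ k M T W m c κ hS
  have hN0 : (0 : ℝ) < Fintype.card V := by exact_mod_cast hS.pos
  have hc1 : c < 1 := by
    have h1 := hS.cu
    have h2 : (0 : ℝ) < 1 / ((m : ℝ) + 1) := by positivity
    linarith
  have hpr0 : ∀ x, 0 ≤ pr T x := fun x => by unfold pr; positivity
  have hpr1 : ∀ x, pr T x ≤ 1 := fun x => by
    unfold pr
    rw [div_le_one hN0]
    have : (univ.filter (fun v => x ∈ T v)).card ≤ Fintype.card V := card_le_univ _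
    exact_mod_cast this
  have hnn1 : ∀ x, 0 ≤ nn T x := fun x => by unfold nn; positivity
  have hrr0 : 0 ≤ rr T := by unfold rr; positivity
  have hrr1 : rr T ≤ 1 := by
    unfold rr
    rw [div_le_one hN0]
    have : (univ.filter (fun v => 2 ≤ (T v ∩ Sg T).card)).card ≤ Fintype.card V := card_le_univ _
    exact_mod_cast this
  have hr00 : 0 ≤ r0 T := by unfold r0; positivity
  obtain ⟨N, hNdef⟩ : ∃ N : ℝ, N = Fintype.card V := ⟨_, rfl⟩
  have hN : 0 < N := by rw [hNdef]; exact hN0
  have hpr : ∀ x, pr T x * N = ((univ.filter (fun v => x ∈ T v)).card : ℝ) := fun x => by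
    rw [pr, hNdef, div_mul_cancel₀ _ hN0.ne']
  have hnn : ∀ x, nn T x * N = ((univ.filter (fun v => T v = {x})).card : ℝ) := fun x => by
    rw [nn, hNdef, div_mul_cancel₀ _ hN0.ne']
  have hmm : ∀ x, mm T x * N = ((univ.filter (fun v => T v ∩ Sg T = {x})).card : ℝ) := fun x => by
    rw [mm, hNdef, div_mul_cancel₀ _ hN0.ne']
  have hrr : rr T * N = ((univ.filter (fun v => 2 ≤ (T v ∩ Sg T).card)).card : ℝ) := by
    rw [rr, hNdef, div_mul_cancel₀ _ hN0.ne']
  have hr0 : r0 T * N = ((univ.filter (fun v => T v ∩ Sg T = ∅)).card : ℝ) := by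
    rw [r0, hNdef, div_mul_cancel₀ _ hN0.ne']
  have hlow : ∀ v, (1 - c) * N ≤ dW W v := by rw [hNdef]; exact hS.low
  have hupp : ∀ v, dW W v ≤ (1 - c + κ) * N := by rw [hNdef]; exact hS.upp
  have hSgM : Sg T ⊆ M := by
    intro j hj
    obtain ⟨v, hv⟩ := (mem_filter.1 hj).2
    have := hS.sub v
    rw [hv] at this
    exact this (mem_singleton_self j)
  have hmemSg : ∀ j v, T v = {j} → j ∈ Sg T := fun j v h => mem_filter.2 ⟨mem_univ _, v, h⟩
  have hTne : ∀ v, (T v).Nonempty := by
    intro v
    have h1 := hlow v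
    have h2 : 0 < (1 - c) * N := mul_pos (by linarith) hN
    have h3 : 0 < dW W v := lt_of_lt_of_le h2 h1
    rw [dW] at h3
    have h4 : 0 < (univ.filter (fun w => W v w)).card := by exact_mod_cast h3
    obtain ⟨w, hw⟩ := card_pos.1 h4
    obtain ⟨x, hx⟩ := hS.meet v w (mem_filter.1 hw).2
    exact ⟨x, (mem_inter.1 hx).1⟩
  -- neighbours of a vertex with `T v = {j}`
  have hnb : ∀ j v w, T v = {j} → W v w → j ∈ T w := by
    intro j v w hv hw
    obtain ⟨x, hx⟩ := hS.meet v w hw
    rw [hv] at hx
    have h1 := mem_inter.1 hx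
    have h2 := mem_singleton.1 h1.1
    rw [← h2]
    exact h1.2
  have hnb2 : ∀ j v w, T v = {j} → W v w → T w ∩ Sg T = {j} ∨ 2 ≤ (T w ∩ Sg T).card := by
    intro j v w hv hw
    have h1 := hnb j v w hv hw
    have h2 : j ∈ T w ∩ Sg T := mem_inter.2 ⟨h1, hmemSg j v hv⟩
    rcases CNT_cases T w with h | ⟨a, ha, h⟩ | h
    · rw [h] at h2
      exact absurd h2 (notMem_empty _)
    · left
      rw [h] at h2
      rw [h, mem_singleton.1 h2]
    · right
      exact h
  refine ⟨⟨hSgM, fun x => ⟨hpr0 x, hpr1 x⟩⟩, ⟨hrr0, hrr1, hr00, ?_⟩, ?_, ?_, ?_, ?_⟩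
  · -- the partition
    have key : (∑ j ∈ Sg T, mm T j + rr T + r0 T) * N = 1 * N := by
      rw [add_mul, add_mul, sum_mul, hrr, hr0, sum_congr rfl (fun j _ => hmm j)]
      have e1 : ∀ (P : V → Prop) [DecidablePred P],
          ((univ.filter P).card : ℝ) = ∑ v, (if P v then (1 : ℝ) else 0) :=
        fun P _ => by rw [sum_boole]
      rw [e1, e1, sum_congr rfl (fun j _ => e1 _), sum_comm, ← sum_add_distrib,
        ← sum_add_distrib]
      have : ∀ v ∈ (univ : Finset V), (∑ j ∈ Sg T, (if T v ∩ Sg T = {j} then (1 : ℝ) else 0)) +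
          (if 2 ≤ (T v ∩ Sg T).card then (1 : ℝ) else 0) +
          (if T v ∩ Sg T = ∅ then (1 : ℝ) else 0) = 1 := by
        intro v _
        rcases CNT_cases T v with h | ⟨a, ha, h⟩ | h
        · rw [h]
          have h3 : ∑ j ∈ Sg T, (if (∅ : Finset (Fin k)) = {j} then (1 : ℝ) else 0) = 0 := by
            refine sum_eq_zero fun j _ => ?_
            rw [if_neg]
            exact (singleton_ne_empty j).symm
          rw [h3]
          simp
        · rw [h, CNT_sing _ a ha]
          simp
        · have h3 : ∑ j ∈ Sg T, (if T v ∩ Sg T = {j} then (1 : ℝ) else 0) = 0 := by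
            refine sum_eq_zero fun j _ => ?_
            rw [if_neg]
            intro h4
            rw [h4, card_singleton] at h
            omega
          have h5 : T v ∩ Sg T ≠ ∅ := by
            intro h4
            rw [h4, card_empty] at h
            omega
          rw [h3, if_pos h, if_neg h5]
          ring
      rw [sum_congr rfl this, sum_const, card_univ, nsmul_eq_mul, mul_one, one_mul, hNdef]
    exact mul_right_cancel₀ hN.ne' key
  · intro j hj
    obtain ⟨v, hv⟩ := (mem_filter.1 hj).2
    refine ⟨hnn1 j, ?_, ?_, ?_⟩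
    · refine le_of_mul_le_mul_right ?_ hN
      rw [hnn, hmm]
      have : (univ.filter (fun v => T v = {j})) ⊆ univ.filter (fun v => T v ∩ Sg T = {j}) := by
        intro w hw
        have h1 := (mem_filter.1 hw).2
        refine mem_filter.2 ⟨mem_univ _, ?_⟩
        rw [h1, singleton_inter_of_mem hj]
      exact_mod_cast card_le_card this
    · refine le_of_mul_le_mul_right ?_ hN
      rw [hpr]
      refine (hlow v).trans ?_
      rw [dW]
      have : (univ.filter (fun w => W v w)) ⊆ univ.filter (fun w => j ∈ T w) := by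
        intro w hw
        exact mem_filter.2 ⟨mem_univ _, hnb j v w hv (mem_filter.1 hw).2⟩
      exact_mod_cast card_le_card this
    · refine le_of_mul_le_mul_right ?_ hN
      rw [sub_mul, hmm, hrr, sub_le_iff_le_add]
      refine (hlow v).trans ?_
      rw [dW]
      have : (univ.filter (fun w => W v w)) ⊆ (univ.filter (fun w => 2 ≤ (T w ∩ Sg T).card)) ∪
          univ.filter (fun w => T w ∩ Sg T = {j}) := by
        intro w hw
        rcases hnb2 j v w hv (mem_filter.1 hw).2 with h | h
        · exact mem_union_right _ (mem_filter.2 ⟨mem_univ _, h⟩)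
        · exact mem_union_left _ (mem_filter.2 ⟨mem_univ _, h⟩)
      have h2 := (card_le_card this).trans (card_union_le _ _)
      exact_mod_cast h2
  · -- pairs
    have hN2 : 0 < N * N := mul_pos hN hN
    refine le_of_mul_le_mul_right ?_ hN2
    set R : Finset V := univ.filter (fun w => 2 ≤ (T w ∩ Sg T).card) with hR
    set g : V → ℝ := fun v => ((R.filter (fun w => W v w)).card : ℝ) with hg
    have hg0 : ∀ v, 0 ≤ g v := fun v => by simp only [hg]; positivity
    have h1 : ∀ j ∈ Sg T, nn T j * max (1 - c - mm T j) 0 * (N * N) ≤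
        ∑ v, (if T v = {j} then g v else 0) := by
      intro j hj
      have h2 : nn T j * max (1 - c - mm T j) 0 * (N * N) =
          ((univ.filter (fun v => T v = {j})).card : ℝ) * max ((1 - c) * N - mm T j * N) 0 := by
        rw [← hnn j]
        have : max ((1 - c) * N - mm T j * N) 0 = max (1 - c - mm T j) 0 * N := by
          rw [max_mul_of_nonneg _ _ hN.le, zero_mul]
          congr 1
          ring
        rw [this]
        ring
      rw [h2, ← sum_filter, ← nsmul_eq_mul, ← sum_const]
      refine sum_le_sum fun v hv => ?_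
      have hv' := (mem_filter.1 hv).2
      refine max_le ?_ (hg0 v)
      rw [hmm, sub_le_iff_le_add]
      refine (hlow v).trans ?_
      rw [dW]
      have : (univ.filter (fun w => W v w)) ⊆ (R.filter (fun w => W v w)) ∪
          univ.filter (fun w => T w ∩ Sg T = {j}) := by
        intro w hw
        have hw' := (mem_filter.1 hw).2
        rcases hnb2 j v w hv' hw' with h | h
        · exact mem_union_right _ (mem_filter.2 ⟨mem_univ _, h⟩)
        · exact mem_union_left _ (mem_filter.2 ⟨mem_filter.2 ⟨mem_univ _, h⟩, hw'⟩)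
      have h2 := (card_le_card this).trans (card_union_le _ _)
      simp only [hg]
      exact_mod_cast h2
    rw [sum_mul]
    refine (sum_le_sum h1).trans ?_
    rw [sum_comm]
    have h3 : ∑ v, ∑ j ∈ Sg T, (if T v = {j} then g v else 0) ≤ ∑ v, g v := by
      refine sum_le_sum fun v _ => ?_
      have h4 : ∑ j ∈ Sg T, (if T v = {j} then g v else 0) =
          (∑ j ∈ Sg T, (if T v = {j} then (1 : ℝ) else 0)) * g v := by
        rw [sum_mul]
        refine sum_congr rfl fun j _ => ?_
        split_ifs <;> simp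
      rw [h4]
      have := mul_le_mul_of_nonneg_right (CNT_single (Sg T) (T v)) (hg0 v)
      rwa [one_mul] at this
    refine h3.trans ?_
    have h5 : ∑ v, g v = ∑ w ∈ R, dW W w := by
      have h6 : ∀ v ∈ (univ : Finset V), g v = ∑ w ∈ R, (if W v w then (1 : ℝ) else 0) := by
        intro v _
        rw [sum_boole]
      rw [sum_congr rfl h6, sum_comm]
      refine sum_congr rfl fun w _ => ?_
      rw [sum_boole, dW]
      congr 2
      ext v
      simp only [mem_filter, mem_univ, true_and]
      exact ⟨hS.symm v w, hS.symm w v⟩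
    rw [h5]
    calc ∑ w ∈ R, dW W w ≤ ∑ _w ∈ R, (1 - c + κ) * N := sum_le_sum fun w _ => hupp w
      _ = rr T * (1 - c + κ) * (N * N) := by
        rw [sum_const, nsmul_eq_mul, ← hrr]
        ring
  · refine le_of_mul_le_mul_right ?_ hN
    rw [CNT_count _ _ N hNdef hN, sub_mul, add_mul, hrr, hr0, one_mul]
    have e1 : ∀ (P : V → Prop) [DecidablePred P],
        ((univ.filter P).card : ℝ) = ∑ v, (if P v then (1 : ℝ) else 0) :=
      fun P _ => by rw [sum_boole]
    have e2 : N = ∑ _v : V, (1 : ℝ) := by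
      rw [hNdef, sum_const, card_univ, nsmul_eq_mul, mul_one]
    rw [e1, e1, e2, ← sum_add_distrib, ← sum_sub_distrib]
    refine sum_le_sum fun v _ => ?_
    rcases CNT_cases T v with h | ⟨a, ha, h⟩ | h
    · rw [h]
      simp
    · rw [h]
      simp
    · rw [if_pos h, if_neg]
      · have : (2 : ℝ) ≤ ((T v ∩ Sg T).card : ℝ) := by exact_mod_cast h
        linarith
      · intro h4
        rw [h4, card_empty] at h
        omega
  · refine le_of_mul_le_mul_right ?_ hN
    rw [CNT_count _ _ N hNdef hN, add_mul, sum_mul]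
    have e1 : ∀ (P : V → Prop) [DecidablePred P],
        ((univ.filter P).card : ℝ) = ∑ v, (if P v then (1 : ℝ) else 0) :=
      fun P _ => by rw [sum_boole]
    have e3 : ∀ j ∈ Sg T, (mm T j - nn T j) * N = ∑ v, ((if T v ∩ Sg T = {j} then (1 : ℝ) else 0) -
        (if T v = {j} then (1 : ℝ) else 0)) := by
      intro j _
      rw [sub_mul, hmm, hnn, e1, e1, ← sum_sub_distrib]
    rw [sum_congr rfl e3, mul_assoc, hr0, e1, sum_comm, mul_sum, ← sum_add_distrib]
    refine sum_le_sum fun v _ => ?_
    rw [sum_sub_distrib]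
    have hsn : 0 ≤ ∑ j ∈ Sg T, (if T v = {j} then (1 : ℝ) else 0) :=
      sum_nonneg fun j _ => by split_ifs <;> norm_num
    rcases CNT_cases T v with h | ⟨a, ha, h⟩ | h
    · -- `T v ∩ A = ∅`
      have h3 : ∑ j ∈ Sg T, (if T v ∩ Sg T = {j} then (1 : ℝ) else 0) = 0 := by
        refine sum_eq_zero fun j _ => ?_
        rw [if_neg]
        rw [h]
        exact (singleton_ne_empty j).symm
      rw [h3, if_pos h]
      have h4 : T v ∩ (M \ Sg T) = T v := by
        refine inter_eq_left.2 ?_
        intro x hx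
        refine mem_sdiff.2 ⟨hS.sub v hx, fun hx2 => ?_⟩
        have : x ∈ T v ∩ Sg T := mem_inter.2 ⟨hx, hx2⟩
        rw [h] at this
        exact notMem_empty _ this
      rw [h4]
      have h5 : 2 ≤ (T v).card := by
        by_contra h6
        have h7 : 0 < (T v).card := card_pos.2 (hTne v)
        obtain ⟨a, ha⟩ := card_eq_one.1 (show (T v).card = 1 by omega)
        have h8 := hmemSg a v ha
        have : a ∈ T v ∩ Sg T := mem_inter.2 ⟨by rw [ha]; exact mem_singleton_self a, h8⟩
        rw [h] at this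
        exact notMem_empty _ this
      have h9 : (2 : ℝ) ≤ ((T v).card : ℝ) := by exact_mod_cast h5
      linarith
    · -- `T v ∩ A = {a}`
      have h3 : ∑ j ∈ Sg T, (if T v ∩ Sg T = {j} then (1 : ℝ) else 0) = 1 := by
        rw [h]
        exact CNT_sing _ a ha
      have h4 : T v ∩ Sg T ≠ ∅ := by
        rw [h]
        exact singleton_ne_empty a
      rw [h3, if_neg h4]
      by_cases h5 : T v = {a}
      · have h6 : ∑ j ∈ Sg T, (if T v = {j} then (1 : ℝ) else 0) = 1 := by
          rw [h5]
          exact CNT_sing _ a ha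
        rw [h6]
        have : (0 : ℝ) ≤ ((T v ∩ (M \ Sg T)).card : ℝ) := by positivity
        linarith
      · have h6 : (T v ∩ (M \ Sg T)).Nonempty := by
          by_contra h7
          rw [not_nonempty_iff_eq_empty] at h7
          apply h5
          rw [← h]
          refine (inter_eq_left.2 ?_).symm
          intro x hx
          by_contra hx2
          have : x ∈ T v ∩ (M \ Sg T) := mem_inter.2 ⟨hx, mem_sdiff.2 ⟨hS.sub v hx, hx2⟩⟩
          rw [h7] at this
          exact notMem_empty _ this
        have h7 : 1 ≤ (T v ∩ (M \ Sg T)).card := card_pos.2 h6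
        have h8 : (1 : ℝ) ≤ ((T v ∩ (M \ Sg T)).card : ℝ) := by exact_mod_cast h7
        linarith
    · -- at least two
      have h3 : ∑ j ∈ Sg T, (if T v ∩ Sg T = {j} then (1 : ℝ) else 0) = 0 := by
        refine sum_eq_zero fun j _ => ?_
        rw [if_neg]
        intro h4
        rw [h4, card_singleton] at h
        omega
      have h4 : T v ∩ Sg T ≠ ∅ := by
        intro h5
        rw [h5, card_empty] at h
        omega
      rw [h3, if_neg h4]
      have : (0 : ℝ) ≤ ((T v ∩ (M \ Sg T)).card : ℝ) := by positivity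
      linarith

end Pool.Agent.Work.MP_1ce445_upg
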