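import Pool.Agent.Work.MP_1ce445_upg.Interface

/-!
Block HUB: exactly `m + 1` singletons.
-/

namespace Pool.Agent.Work.MP_1ce445_upg

open Finset Pool.Agent.Work.MP_1ce445_co_56 Pool.Agent.Work.MP_1ce445_lin

theorem HUB_amgm {ι : Type*} (A : Finset ι) (z : ι → ℝ) (hz : ∀ j ∈ A, 0 ≤ z j) (hA : 0 < A.card) :
    ∏ j ∈ A, z j ≤ ((∑ j ∈ A, z j) / A.card) ^ A.card := by
  have hA' : (0 : ℝ) < A.card := by exact_mod_cast hA
  have h1 := Real.geom_mean_le_arith_mean_weighted A (fun _ => (1 : ℝ) / A.card) z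
    (fun _ _ => by positivity) (by
      rw [sum_const, nsmul_eq_mul]
      field_simp) hz
  have h2 : ∏ j ∈ A, z j = (∏ j ∈ A, z j ^ ((1 : ℝ) / A.card)) ^ A.card := by
    rw [← prod_pow]
    refine prod_congr rfl fun j hj => ?_
    rw [← Real.rpow_natCast, ← Real.rpow_mul (hz j hj)]
    rw [one_div, inv_mul_cancel₀ hA'.ne', Real.rpow_one]
  rw [h2]
  refine pow_le_pow_left₀ (prod_nonneg fun j hj => Real.rpow_nonneg (hz j hj) _) ?_ _
  refine h1.trans (le_of_eq ?_)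
  rw [← mul_sum]
  ring

theorem HUB_exp {ι : Type*} (B : Finset ι) (p : ι → ℝ) (hp : ∀ j ∈ B, p j ≤ 1) :
    ∏ j ∈ B, (1 - p j) ≤ Real.exp (-∑ j ∈ B, p j) := by
  rw [← sum_neg_distrib, Real.exp_sum]
  refine prod_le_prod (fun j hj => by linarith [hp j hj]) (fun j _ => ?_)
  have := Real.add_one_le_exp (-p j)
  linarith

theorem stmt_HUB (h1 : Stmt_CNT) (h2 : Stmt_QUA) (h3 : Stmt_REA) : Stmt_HUB := by
  intro V _ k M T W m c κ hS hA
  obtain ⟨⟨hAM, hp⟩, ⟨hr0, hr1, hq0, hpart⟩, hj, hpairs, hsumA, hsumB⟩ := h1 M T W m c κ hS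
  have hm := hS.hm
  have hm' : (2 : ℝ) ≤ m := by exact_mod_cast hm
  have hc0 := hS.cl
  have hc1 := hS.cu
  have hκ := hS.kap
  have hq : (0 : ℝ) < (m : ℝ) + 1 := by linarith
  have hcard : ((Sg T).card : ℝ) = (m : ℝ) + 1 := by rw [hA]; push_cast; ring
  have hposA : 0 < (Sg T).card := by rw [hA]; omega
  -- splitting of the product
  have hsplit : ∏ x ∈ M, (1 - pr T x) =
      (∏ x ∈ M \ Sg T, (1 - pr T x)) * ∏ x ∈ Sg T, (1 - pr T x) :=
    (prod_sdiff hAM).symm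
  have hBle : ∏ x ∈ M \ Sg T, (1 - pr T x) ≤ 1 :=
    prod_le_one (fun x _ => by linarith [(hp x).2]) (fun x _ => by linarith [(hp x).1])
  have hB0 : 0 ≤ ∏ x ∈ M \ Sg T, (1 - pr T x) :=
    prod_nonneg (fun x _ => by linarith [(hp x).2])
  have hA0 : 0 ≤ ∏ x ∈ Sg T, (1 - pr T x) :=
    prod_nonneg (fun x _ => by linarith [(hp x).2])
  have hsq : 0 ≤ Real.sqrt κ := Real.sqrt_nonneg κ
  -- η
  set η : ℝ := (m : ℝ) - (m + 1) * c with hη
  have hη0 : 0 ≤ η := by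
    have h4 : ((m : ℝ) + 1) * c ≤ ((m : ℝ) + 1) * (1 - 1 / ((m : ℝ) + 1)) :=
      mul_le_mul_of_nonneg_left hc1 hq.le
    have h5 : ((m : ℝ) + 1) * (1 - 1 / ((m : ℝ) + 1)) = m := by field_simp; ring
    rw [h5] at h4
    rw [hη]; linarith
  have hD : 0 < 1 - c := by
    have : 0 < 1 / ((m : ℝ) + 1) := by positivity
    linarith
  set z : ℝ := Real.sqrt (η * (1 - c - η)) with hz
  have hz0 : 0 ≤ z := Real.sqrt_nonneg _
  have hzhalf : z ≤ 1 / 2 := by
    rw [hz]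
    refine Real.sqrt_le_iff.2 ⟨by norm_num, ?_⟩
    nlinarith [sq_nonneg (1 - c - 2 * η)]
  have hDl : Dl m c = max 0 (z - η) := by
    unfold Dl
    rw [hz, hη]
    congr 3
    ring
  by_cases hcase : z ≤ η
  · -- `Dl = 0`
    have h0 : Dl m c = 0 := by
      rw [hDl]; exact max_eq_left (by linarith)
    rw [h0, zero_div, sub_zero, hsplit]
    have h4 : ∏ x ∈ Sg T, (1 - pr T x) ≤ c ^ (m + 1) := by
      have h5 : ∏ x ∈ Sg T, (1 - pr T x) ≤ ∏ _x ∈ Sg T, c :=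
        prod_le_prod (fun x _ => by linarith [(hp x).2])
          (fun x hx => by linarith [(hj x hx).2.2.1])
      rwa [prod_const, hA] at h5
    calc (∏ x ∈ M \ Sg T, (1 - pr T x)) * ∏ x ∈ Sg T, (1 - pr T x)
        ≤ 1 * ∏ x ∈ Sg T, (1 - pr T x) := mul_le_mul_of_nonneg_right hBle hA0
      _ ≤ c ^ (m + 1) := by rw [one_mul]; exact h4
      _ ≤ c ^ (m + 1) + Real.sqrt κ := by linarith
  · push Not at hcase
    have h0 : Dl m c = z - η := by
      rw [hDl]; exact max_eq_right (by linarith)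
    have hbase : c - Dl m c / ((m : ℝ) + 1) = ((m : ℝ) - z) / (m + 1) := by
      rw [h0]
      field_simp
      rw [hη]; ring
    -- QUA
    have hsum : ∑ j ∈ Sg T, (1 - c - mm T j) = η + rr T + r0 T := by
      rw [sum_sub_distrib, sum_const, nsmul_eq_mul, hcard]
      have : ∑ j ∈ Sg T, mm T j = 1 - rr T - r0 T := by linarith
      rw [this, hη]; ring
    have hQ := h2 (Sg T) (fun j => 1 - c - mm T j) (fun j => mm T j - nn T j) (1 - c) (rr T) (r0 T)
      η κ hD hr0 hr1 hq0 hη0 hκ (fun j hjA => by linarith [(hj j hjA).2.1]) hsum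
      (fun j hjA => (hj j hjA).2.2.2) (by
        have h4 : ∑ j ∈ Sg T, (1 - c - (1 - c - mm T j) - (mm T j - nn T j)) *
            max (1 - c - mm T j) 0 = ∑ j ∈ Sg T, nn T j * max (1 - c - mm T j) 0 := by
          refine sum_congr rfl fun j _ => ?_
          congr 1
          ring
        rw [h4]
        exact hpairs)
    rw [← hz] at hQ
    set ρ : ℝ := ∑ j ∈ Sg T, (mm T j - nn T j) with hρ
    have hρ0 : 0 ≤ ρ := sum_nonneg (fun j hjA => by linarith [(hj j hjA).2.1])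
    -- the two products
    have hAle : ∏ x ∈ Sg T, (1 - pr T x) ≤ (((m : ℝ) - rr T + r0 T) / (m + 1)) ^ (m + 1) := by
      have h4 := HUB_amgm (Sg T) (fun x => 1 - pr T x) (fun x _ => by linarith [(hp x).2]) hposA
      refine h4.trans ?_
      rw [hA]
      have h5 : ∑ x ∈ Sg T, (1 - pr T x) = (m : ℝ) + 1 - ∑ x ∈ Sg T, pr T x := by
        rw [sum_sub_distrib, sum_const, nsmul_eq_mul, mul_one, hcard]
      have h6 : 0 ≤ ∑ x ∈ Sg T, (1 - pr T x) :=
        sum_nonneg (fun x _ => by linarith [(hp x).2])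
      push_cast
      refine pow_le_pow_left₀ (div_nonneg h6 hq.le) ?_ _
      refine div_le_div_of_nonneg_right ?_ hq.le
      rw [h5]; linarith
    have hBexp : ∏ x ∈ M \ Sg T, (1 - pr T x) ≤ Real.exp (-(ρ + 2 * r0 T)) :=
      (HUB_exp (M \ Sg T) (fun x => pr T x) (fun x _ => (hp x).2)).trans
        (Real.exp_le_exp.2 (by linarith))
    have hbn : 0 ≤ (m : ℝ) - rr T + r0 T := by linarith
    have hR := h3 m (rr T) (r0 T) ρ z (Real.sqrt κ) hm hr0 hq0 hρ0 hz0 hzhalf hsq hbn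
      (by linarith)
    rw [hbase, hsplit]
    calc (∏ x ∈ M \ Sg T, (1 - pr T x)) * ∏ x ∈ Sg T, (1 - pr T x)
        ≤ Real.exp (-(ρ + 2 * r0 T)) * (((m : ℝ) - rr T + r0 T) / (m + 1)) ^ (m + 1) :=
          mul_le_mul hBexp hAle hA0 (Real.exp_pos _).le
      _ = (((m : ℝ) - rr T + r0 T) / (m + 1)) ^ (m + 1) * Real.exp (-(ρ + 2 * r0 T)) :=
          mul_comm _ _
      _ ≤ (((m : ℝ) - z) / (m + 1)) ^ (m + 1) + Real.sqrt κ := hR

end Pool.Agent.Work.MP_1ce445_upg
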