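import Pool.Agent.Work.MP_1ce445_upg.Interface

namespace Pool.Agent.Work.MP_1ce445_upg

open Finset Pool.Agent.Work.MP_1ce445_co_56 Pool.Agent.Work.MP_1ce445_lin

theorem REA_pow (a b : ℝ) (ha : 0 ≤ a) (hb : 0 ≤ b) (hab : a + b ≤ 1) (n : ℕ) :
    (a + b) ^ n ≤ a ^ n + n * b := by
  induction n with
  | zero => simp
  | succ n ih =>
    have h0 : 0 ≤ a + b := by linarith
    have h1 : (a + b) ^ (n + 1) ≤ (a ^ n + n * b) * (a + b) := by
      rw [pow_succ]
      exact mul_le_mul_of_nonneg_right ih h0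
    have h2 : a ^ n ≤ 1 := pow_le_one₀ ha (by linarith)
    have h3 : a ^ n * b ≤ 1 * b := mul_le_mul_of_nonneg_right h2 hb
    have h4 : (n : ℝ) * b * (a + b) ≤ (n : ℝ) * b * 1 :=
      mul_le_mul_of_nonneg_left hab (by positivity)
    have h5 : a ^ (n + 1) = a ^ n * a := pow_succ a n
    push_cast
    nlinarith [h1, h3, h4, h5]

theorem stmt_REA : Stmt_REA := by
  intro m r r₀ ρ z σ hm hr hr0 hρ hz hz2 hσ hX hzr
  have hmR : (2 : ℝ) ≤ (m : ℝ) := by exact_mod_cast hm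
  set q : ℝ := (m : ℝ) + 1 with hq
  have hq0 : 0 < q := by linarith
  set z' : ℝ := max 0 (z - σ) with hz'
  have hz'0 : 0 ≤ z' := le_max_left _ _
  have hz'1 : z - σ ≤ z' := le_max_right _ _
  have hz'2 : z' ≤ z := max_le hz (by linarith)
  have hz'3 : z' ≤ r + ρ / 2 := max_le (by positivity) (by linarith)
  set X : ℝ := (m : ℝ) - z' with hXd
  have hX2 : q ≤ 2 * X := by
    rw [hXd, hq]; linarith
  have hX0 : 0 < X := by linarith
  set δ : ℝ := ρ / 2 + r₀ with hδ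
  have hδ0 : 0 ≤ δ := by positivity
  have h1 : (m : ℝ) - r + r₀ ≤ X + δ := by
    rw [hXd, hδ]; linarith
  have h2 : (((m : ℝ) - r + r₀) / q) ^ (m + 1) ≤ ((X + δ) / q) ^ (m + 1) := by
    apply pow_le_pow_left₀ (by positivity)
    exact div_le_div_of_nonneg_right h1 hq0.le
  have h3 : (X + δ) / q = X / q * (1 + δ / X) := by
    field_simp
  have h4 : (1 + δ / X) ^ (m + 1) ≤ Real.exp (2 * δ) := by
    have h5 : 1 + δ / X ≤ Real.exp (δ / X) := by
      have := Real.add_one_le_exp (δ / X)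
      linarith
    calc (1 + δ / X) ^ (m + 1) ≤ (Real.exp (δ / X)) ^ (m + 1) :=
          pow_le_pow_left₀ (by positivity) h5 _
      _ = Real.exp (((m + 1 : ℕ) : ℝ) * (δ / X)) := by rw [Real.exp_nat_mul]
      _ ≤ Real.exp (2 * δ) := by
          apply Real.exp_le_exp.mpr
          push_cast
          rw [← hq, ← mul_div_assoc, div_le_iff₀ hX0]
          nlinarith [mul_le_mul_of_nonneg_left hX2 hδ0]
  have h6 : ((X + δ) / q) ^ (m + 1) ≤ (X / q) ^ (m + 1) * Real.exp (2 * δ) := by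
    rw [h3, mul_pow]
    exact mul_le_mul_of_nonneg_left h4 (by positivity)
  have h7 : (((m : ℝ) - r + r₀) / q) ^ (m + 1) * Real.exp (-(ρ + 2 * r₀)) ≤
      (X / q) ^ (m + 1) := by
    calc (((m : ℝ) - r + r₀) / q) ^ (m + 1) * Real.exp (-(ρ + 2 * r₀))
        ≤ ((X / q) ^ (m + 1) * Real.exp (2 * δ)) * Real.exp (-(ρ + 2 * r₀)) :=
          mul_le_mul_of_nonneg_right (h2.trans h6) (Real.exp_pos _).le
      _ = (X / q) ^ (m + 1) := by
          rw [mul_assoc, ← Real.exp_add]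
          have : 2 * δ + -(ρ + 2 * r₀) = 0 := by rw [hδ]; ring
          rw [this, Real.exp_zero, mul_one]
  have h8 : X / q = ((m : ℝ) - z) / q + (z - z') / q := by
    rw [hXd]; ring
  have ha : 0 ≤ ((m : ℝ) - z) / q := div_nonneg (by linarith) hq0.le
  have hb : 0 ≤ (z - z') / q := div_nonneg (by linarith) hq0.le
  have hab : ((m : ℝ) - z) / q + (z - z') / q ≤ 1 := by
    rw [← h8, div_le_one hq0, hXd, hq]
    linarith
  have h9 := REA_pow _ _ ha hb hab (m + 1)
  rw [← h8] at h9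
  have h10 : ((m + 1 : ℕ) : ℝ) * ((z - z') / q) ≤ σ := by
    push_cast
    rw [← hq, mul_div_cancel₀ _ hq0.ne']
    linarith
  linarith

end Pool.Agent.Work.MP_1ce445_upg
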