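import Pool.Agent.Work.MP_1ce445_upg.Interface

namespace Pool.Agent.Work.MP_1ce445_upg

open Finset Pool.Agent.Work.MP_1ce445_co_56 Pool.Agent.Work.MP_1ce445_lin

theorem stmt_ALU (h1 : Stmt_CNT) (h2 : Stmt_HUB) (h3 : Stmt_INB) (h4 : Stmt_POW) : Stmt_ALU := by
  intro V _ k M T W m c κ hS
  have hC := h1 M T W m c κ hS
  have hsub : Sg T ⊆ M := hC.1.1
  have hp : ∀ x, 0 ≤ pr T x ∧ pr T x ≤ 1 := hC.1.2
  have hA : ∀ j ∈ Sg T, 1 - c ≤ pr T j := fun j hj => (hC.2.2.1 j hj).2.2.1
  have hk : 0 ≤ Real.sqrt κ := Real.sqrt_nonneg κ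
  have hl := le_max_left ((1 - 1 / (m : ℝ)) ^ m) ((c - Dl m c / (m + 1)) ^ (m + 1))
  have hr := le_max_right ((1 - 1 / (m : ℝ)) ^ m) ((c - Dl m c / (m + 1)) ^ (m + 1))
  by_cases hle : (Sg T).card ≤ m
  · have h5 := h3 M T W m c κ hS hle
    linarith
  · by_cases heq : (Sg T).card = m + 1
    · have h5 := h2 M T W m c κ hS heq
      linarith
    · have hge : m + 2 ≤ (Sg T).card := by omega
      have hc1 : c ≤ 1 := by
        have h6 := hS.cu
        have h7 : 0 ≤ 1 / ((m : ℝ) + 1) := by positivity
        linarith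
      have h6 : ∏ x ∈ M, (1 - pr T x) ≤ c ^ (m + 2) := by
        rw [← Finset.prod_sdiff hsub]
        have h7 : ∏ x ∈ M \ Sg T, (1 - pr T x) ≤ 1 := by
          apply Finset.prod_le_one
          · intro x _
            have := (hp x).2
            linarith
          · intro x _
            have := (hp x).1
            linarith
        have h8 : ∏ x ∈ Sg T, (1 - pr T x) ≤ c ^ (Sg T).card := by
          have h9 : ∏ x ∈ Sg T, (1 - pr T x) ≤ ∏ x ∈ Sg T, c := by
            apply Finset.prod_le_prod
            · intro x _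
              have := (hp x).2
              linarith
            · intro x hx
              have := hA x hx
              linarith
          rwa [Finset.prod_const] at h9
        have h9 : 0 ≤ ∏ x ∈ Sg T, (1 - pr T x) := by
          apply Finset.prod_nonneg
          intro x _
          have := (hp x).2
          linarith
        have h10 : c ^ (Sg T).card ≤ c ^ (m + 2) := pow_le_pow_of_le_one hS.cl hc1 hge
        calc (∏ x ∈ M \ Sg T, (1 - pr T x)) * ∏ x ∈ Sg T, (1 - pr T x)
            ≤ 1 * ∏ x ∈ Sg T, (1 - pr T x) := mul_le_mul_of_nonneg_right h7 h9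
          _ ≤ c ^ (m + 2) := by linarith
      have h7 := h4 m c hS.hm hS.cl hS.cu
      linarith

end Pool.Agent.Work.MP_1ce445_upg
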