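import Pool.Agent.Work.MP_1ce445_upg.Interface

/-!
THEOREM UPG for MP_1ce445_co, block INB: at most `m` singletons.
-/

namespace Pool.Agent.Work.MP_1ce445_upg

open Finset Pool.Agent.Work.MP_1ce445_co_56 Pool.Agent.Work.MP_1ce445_lin

lemma INB_amgm {ι : Type*} (A : Finset ι) (z : ι → ℝ) (hz : ∀ j ∈ A, 0 ≤ z j) (hA : 0 < A.card) :
    ∏ j ∈ A, z j ≤ ((∑ j ∈ A, z j) / A.card) ^ A.card := by
  have hA' : (0 : ℝ) < A.card := by exact_mod_cast hA
  have h1 := Real.geom_mean_le_arith_mean_weighted A (fun _ => (1 : ℝ) / A.card) z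
    (fun _ _ => by positivity) (by
      rw [sum_const, nsmul_eq_mul]
      field_simp) hz
  have h2 : ∏ j ∈ A, z j = (∏ j ∈ A, z j ^ ((1 : ℝ) / A.card)) ^ A.card := by
    rw [← prod_pow]
    refine prod_congr rfl fun j hj => ?_
    rw [← Real.rpow_natCast, ← Real.rpow_mul (hz j hj)]
    rw [one_div, inv_mul_cancel₀ hA'.ne', Real.rpow_one]
  rw [h2]
  refine pow_le_pow_left₀ (prod_nonneg fun j hj => Real.rpow_nonneg (hz j hj) _) ?_ _
  refine h1.trans (le_of_eq ?_)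
  rw [← mul_sum]
  ring

theorem stmt_INB (h1 : Stmt_INA) (h2 : Stmt_CNT) : Stmt_INB := by
  intro V _ k M T W m c κ hS hcard
  obtain ⟨⟨hAM, hp⟩, ⟨hr1, hr2, hr3, hsum⟩, hj, -, hA1, hA2⟩ := h2 M T W m c κ hS
  have hm := hS.hm
  have hNN : ∑ j ∈ Sg T, (mm T j - nn T j) = ∑ j ∈ Sg T, mm T j - ∑ j ∈ Sg T, nn T j :=
    sum_sub_distrib _ _
  have hnm : ∑ j ∈ Sg T, nn T j ≤ ∑ j ∈ Sg T, mm T j := sum_le_sum fun j hjj => (hj j hjj).2.1
  obtain ⟨r, hr⟩ : ∃ r, r = 1 - ∑ j ∈ Sg T, nn T j := ⟨_, rfl⟩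
  obtain ⟨x, hx⟩ : ∃ x, x = ∑ j ∈ Sg T, pr T j := ⟨_, rfl⟩
  rw [← hx] at hA1
  rw [hNN] at hA2
  have hr0 : 0 ≤ r := by linarith
  have hx1 : 1 - 0 - r ≤ x := by linarith
  have hx2 : 1 - 0 + r - x ≤ ∑ j ∈ M \ Sg T, pr T j := by linarith
  have hexpB : ∏ j ∈ M \ Sg T, (1 - pr T j) ≤ Real.exp (-(1 - 0 + r - x)) := by
    have h3 : ∏ j ∈ M \ Sg T, (1 - pr T j) ≤ Real.exp (-∑ j ∈ M \ Sg T, pr T j) := by
      rw [← sum_neg_distrib, Real.exp_sum]
      exact prod_le_prod (fun j _ => by linarith [(hp j).2])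
        (fun j _ => Real.one_sub_le_exp_neg (pr T j))
    exact h3.trans (Real.exp_le_exp.2 (by linarith))
  have hsplit : ∏ j ∈ M, (1 - pr T j) =
      (∏ j ∈ M \ Sg T, (1 - pr T j)) * ∏ j ∈ Sg T, (1 - pr T j) := (prod_sdiff hAM).symm
  rw [hsplit]
  rcases Nat.eq_zero_or_pos (Sg T).card with ha | ha
  · have hA0 : Sg T = ∅ := card_eq_zero.1 ha
    have hr' : r = 1 := by rw [hr, hA0, sum_empty, sub_zero]
    have hx' : x = 0 := by rw [hx, hA0, sum_empty]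
    have h4 := h1 1 m 0 0 1 le_rfl (by omega) hm le_rfl zero_le_one le_rfl (by norm_num)
      (by norm_num)
    have h5 : ∏ j ∈ Sg T, (1 - pr T j) = 1 := by rw [hA0, prod_empty]
    rw [h5, mul_one]
    rw [hr', hx'] at hexpB
    have h6 : (1 - (0 : ℝ) / ((1 : ℕ) : ℝ)) ^ 1 * Real.exp (-(1 - 0 + 1 - 0)) =
        Real.exp (-(1 - 0 + 1 - 0)) := by norm_num
    have h7 : Real.exp (2 * 0) * (1 - 1 / (m : ℝ)) ^ m = (1 - 1 / (m : ℝ)) ^ m := by
      rw [mul_zero, Real.exp_zero, one_mul]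
    rw [h6, h7] at h4
    exact hexpB.trans h4
  · have hA' : (0 : ℝ) < (Sg T).card := by exact_mod_cast ha
    have hx0 : 0 ≤ x := by
      rw [hx]
      exact sum_nonneg fun j _ => (hp j).1
    have hxa : x ≤ (Sg T).card := by
      calc x = ∑ j ∈ Sg T, pr T j := hx
        _ ≤ ∑ _j ∈ Sg T, (1 : ℝ) := sum_le_sum fun j _ => (hp j).2
        _ = (Sg T).card := by simp
    have h4 := h1 (Sg T).card m x 0 r ha hcard hm le_rfl hr0 hx0 hxa hx1
    rw [mul_zero, Real.exp_zero, one_mul] at h4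
    refine le_trans ?_ h4
    rw [mul_comm]
    have h5 : ∏ j ∈ Sg T, (1 - pr T j) ≤ (1 - x / (Sg T).card) ^ (Sg T).card := by
      refine (INB_amgm (Sg T) (fun j => 1 - pr T j) (fun j _ => by linarith [(hp j).2]) ha).trans
        (le_of_eq ?_)
      congr 1
      rw [sum_sub_distrib, sum_const, nsmul_eq_mul, mul_one, ← hx]
      field_simp
    refine mul_le_mul h5 hexpB (prod_nonneg fun j _ => by linarith [(hp j).2]) ?_
    refine pow_nonneg ?_ _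
    rw [sub_nonneg, div_le_one hA']
    exact hxa

end Pool.Agent.Work.MP_1ce445_upg
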