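import Pool.Agent.Work.MP_1ce445_upg.Interface

/-! Block RAT: a real inequality. -/

namespace Pool.Agent.Work.MP_1ce445_upg

open Finset Pool.Agent.Work.MP_1ce445_co_56 Pool.Agent.Work.MP_1ce445_lin

/-- `(1 - 1/(m+1))^(m+1) ≤ 32/27 (1 - 1/m)^m` for `m ≥ 2`. -/
theorem RAT_ratio (m : ℕ) (hm : 2 ≤ m) :
    (1 - 1 / ((m : ℝ) + 1)) ^ (m + 1) ≤ 32 / 27 * (1 - 1 / (m : ℝ)) ^ m := by
  rcases Nat.lt_or_ge m 3 with h3 | h3
  · have : m = 2 := by omega
    subst this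
    norm_num
  have hm0 : (3 : ℝ) ≤ m := by exact_mod_cast h3
  have hmp : (0 : ℝ) < m := by linarith
  have hB : 1 - 1 / (m : ℝ) ≤ (1 - 1 / (m : ℝ) ^ 2) ^ m := by
    have h := one_add_mul_le_pow (a := -(1 / (m : ℝ) ^ 2)) (by
      have : 1 / (m : ℝ) ^ 2 ≤ 1 := by
        rw [div_le_one (by positivity)]; nlinarith
      linarith) m
    have e1 : 1 + (m : ℝ) * -(1 / (m : ℝ) ^ 2) = 1 - 1 / m := by
      field_simp
      ring
    rw [e1] at h
    exact h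
  have hQ : (0 : ℝ) ≤ 1 - 1 / ((m : ℝ) + 1) := by
    have : 1 / ((m : ℝ) + 1) ≤ 1 := by rw [div_le_one (by linarith)]; linarith
    linarith
  have hfac : (1 - 1 / (m : ℝ) ^ 2) * (1 - 1 / ((m : ℝ) + 1)) = 1 - 1 / (m : ℝ) := by
    field_simp
    ring
  have h1 : (1 - 1 / (m : ℝ)) ^ m = (1 - 1 / (m : ℝ) ^ 2) ^ m * (1 - 1 / ((m : ℝ) + 1)) ^ m := by
    rw [← mul_pow, hfac]
  have h2 : (1 - 1 / (m : ℝ)) * (1 - 1 / ((m : ℝ) + 1)) ^ m ≤ (1 - 1 / (m : ℝ)) ^ m := by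
    rw [h1]
    exact mul_le_mul_of_nonneg_right hB (by positivity)
  have h4 : 1 - 1 / ((m : ℝ) + 1) ≤ 32 / 27 * (1 - 1 / (m : ℝ)) := by
    have e : 32 / 27 * (1 - 1 / (m : ℝ)) - (1 - 1 / ((m : ℝ) + 1)) =
        (5 * (m : ℝ) ^ 2 - 32) / (27 * (m * (m + 1))) := by
      field_simp
      ring
    have : 0 ≤ (5 * (m : ℝ) ^ 2 - 32) / (27 * (m * (m + 1))) := by
      apply div_nonneg
      · nlinarith
      · positivity
    linarith
  calc (1 - 1 / ((m : ℝ) + 1)) ^ (m + 1)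
      = (1 - 1 / ((m : ℝ) + 1)) * (1 - 1 / ((m : ℝ) + 1)) ^ m := by ring
    _ ≤ 32 / 27 * (1 - 1 / (m : ℝ)) * (1 - 1 / ((m : ℝ) + 1)) ^ m :=
        mul_le_mul_of_nonneg_right h4 (by positivity)
    _ = 32 / 27 * ((1 - 1 / (m : ℝ)) * (1 - 1 / ((m : ℝ) + 1)) ^ m) := by ring
    _ ≤ 32 / 27 * (1 - 1 / (m : ℝ)) ^ m := by
        apply mul_le_mul_of_nonneg_left h2 (by norm_num)

theorem stmt_RAT : Stmt_RAT := by
  intro m c hm hc hcu
  have hm2 : (2 : ℝ) ≤ m := by exact_mod_cast hm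
  have hm1 : (0 : ℝ) < (m : ℝ) + 1 := by linarith
  have hu : 0 ≤ (m : ℝ) - (m + 1) * c := by
    have h := mul_le_mul_of_nonneg_left hcu hm1.le
    have e : ((m : ℝ) + 1) * (1 - 1 / ((m : ℝ) + 1)) = m := by field_simp; ring
    linarith
  have hc1 : c < 1 := by
    have : 0 < 1 / ((m : ℝ) + 1) := by positivity
    linarith
  have hc0 : 0 < c := by linarith
  have hd0 : 0 ≤ Dl m c := le_max_left _ _
  have hd1 : Dl m c ≤ (1 - c) / 2 := by
    unfold Dl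
    refine max_le (by linarith) ?_
    have h1 : Real.sqrt (((m : ℝ) - (m + 1) * c) * (m * c - (m - 1))) ≤ (1 - c) / 2 := by
      apply Real.sqrt_le_iff.2
      refine ⟨by linarith, ?_⟩
      nlinarith [sq_nonneg (((m : ℝ) - (m + 1) * c) - (m * c - (m - 1)))]
    linarith
  have hx : ∃ x : ℝ, x = Dl m c / c := ⟨_, rfl⟩
  obtain ⟨x, hx⟩ := hx
  have hx0 : 0 ≤ x := by rw [hx]; exact div_nonneg hd0 hc0.le
  have hdx : Dl m c = c * x := by rw [hx]; field_simp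
  have hx1 : x ≤ 1 / 2 := by rw [hx, div_le_iff₀ hc0]; linarith
  have hL : (c - Dl m c / (m + 1)) ^ (m + 1) ≤ c ^ (m + 1) * Real.exp (-x) := by
    have e1 : c - Dl m c / (m + 1) = c * (1 - x / (m + 1)) := by rw [hdx]; field_simp
    rw [e1, mul_pow]
    apply mul_le_mul_of_nonneg_left _ (by positivity)
    have h0 : 0 ≤ 1 - x / ((m : ℝ) + 1) := by
      have : x / ((m : ℝ) + 1) ≤ 1 := by rw [div_le_one hm1]; linarith
      linarith
    have h1 : 1 - x / ((m : ℝ) + 1) ≤ Real.exp (-(x / ((m : ℝ) + 1))) := by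
      have := Real.add_one_le_exp (-(x / ((m : ℝ) + 1)))
      linarith
    calc (1 - x / ((m : ℝ) + 1)) ^ (m + 1)
        ≤ (Real.exp (-(x / ((m : ℝ) + 1)))) ^ (m + 1) := pow_le_pow_left₀ h0 h1 _
      _ = Real.exp (-x) := by
        rw [← Real.exp_nat_mul]
        congr 1
        push_cast
        field_simp
  have hmax1 := le_max_left ((1 - 1 / (m : ℝ)) ^ m) (c ^ m * (c - Dl m c))
  have hmax2 := le_max_right ((1 - 1 / (m : ℝ)) ^ m) (c ^ m * (c - Dl m c))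
  have hA : 0 ≤ (1 - 1 / (m : ℝ)) ^ m := by
    apply pow_nonneg
    have : 1 / (m : ℝ) ≤ 1 := by rw [div_le_one (by linarith)]; linarith
    linarith
  rcases le_or_gt (7 / 40) x with h7 | h7
  · have h1 : c ^ (m + 1) ≤ 32 / 27 * (1 - 1 / (m : ℝ)) ^ m :=
      (pow_le_pow_left₀ hc0.le hcu _).trans (RAT_ratio m hm)
    have h2 : Real.exp (-x) ≤ 27 / 32 := by
      have h4 : Real.exp (-(7 / 40 : ℝ)) ≤ 27 / 32 := by
        rw [Real.exp_neg, inv_le_comm₀ (Real.exp_pos _) (by norm_num)]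
        have := Real.quadratic_le_exp_of_nonneg (x := 7 / 40) (by norm_num)
        norm_num at this ⊢
        linarith
      exact (Real.exp_le_exp.2 (by linarith)).trans h4
    calc (c - Dl m c / (m + 1)) ^ (m + 1) ≤ c ^ (m + 1) * Real.exp (-x) := hL
      _ ≤ (32 / 27 * (1 - 1 / (m : ℝ)) ^ m) * (27 / 32) :=
        mul_le_mul h1 h2 (Real.exp_pos _).le (by positivity)
      _ = (1 - 1 / (m : ℝ)) ^ m := by ring
      _ ≤ 51 / 50 * max ((1 - 1 / (m : ℝ)) ^ m) (c ^ m * (c - Dl m c)) := by linarith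
  · have h2 : Real.exp (-x) ≤ 51 / 50 * (1 - x) := by
      rw [Real.exp_neg]
      have h := Real.quadratic_le_exp_of_nonneg hx0
      have hp : 0 < 1 + x + x ^ 2 / 2 := by positivity
      calc (Real.exp x)⁻¹ ≤ (1 + x + x ^ 2 / 2)⁻¹ := inv_anti₀ hp h
        _ ≤ 51 / 50 * (1 - x) := by
          rw [inv_le_iff_one_le_mul₀ hp]
          have h3 : x ^ 2 ≤ 49 / 1600 := by nlinarith
          have h4 : x ^ 3 ≤ 343 / 64000 := by
            have : x ^ 3 = x * x ^ 2 := by ring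
            rw [this]; nlinarith
          nlinarith
    calc (c - Dl m c / (m + 1)) ^ (m + 1) ≤ c ^ (m + 1) * Real.exp (-x) := hL
      _ ≤ c ^ (m + 1) * (51 / 50 * (1 - x)) := mul_le_mul_of_nonneg_left h2 (by positivity)
      _ = 51 / 50 * (c ^ m * (c - Dl m c)) := by rw [hdx]; ring
      _ ≤ 51 / 50 * max ((1 - 1 / (m : ℝ)) ^ m) (c ^ m * (c - Dl m c)) := by linarith

end Pool.Agent.Work.MP_1ce445_upg
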